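import Mathlib
import Pool.Agent.Results.MP_d02c56_nt.SparseCoalescence
import Pool.Agent.Results.MP_d02c56_nt.FourierUniformity

/-!
# Invariant sets of the 3x+1 map and bounded weights with constant window means

The indicator function of an invariant set is almost unchanged by shifts up to `N ^ θ`. So its
correlation with a bounded weight depends only on the means of the weight over long windows.
-/

set_option autoImplicit false

namespace Pool.Agent.Q49.PE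

open Finset Filter Topology
open Pool.Agent.Results.MP_d02c56_nt.SparseCoalescence (T Spread)
open Pool.Agent.Results.MP_d02c56_nt.FourierUniformity (HasDensity)

/-- invariance under the shortcut map -/
def Inv (S : Set ℤ) : Prop := ∀ x : ℤ, x ∈ S ↔ T x ∈ S

theorem iter_mem {S : Set ℤ} (hS : Inv S) (k : ℕ) : ∀ x : ℤ, x ∈ S ↔ T^[k] x ∈ S := by
  induction k with
  | zero => intro x; rfl
  | succ k ih => intro x; rw [Function.iterate_succ_apply]; exact (hS x).trans (ih _)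

theorem inv_C {S : Set ℤ} (hS : Inv S) :
    Pool.Agent.Results.MP_d02c56_nt.FourierUniformity.Invariant S := by
  intro x
  unfold Pool.Agent.Results.MP_d02c56_nt.FourierUniformity.C
  by_cases h : x % 2 = 0
  · rw [if_pos h]
    have := hS x
    unfold T at this
    rwa [if_pos h] at this
  · rw [if_neg h]
    have h1 := hS x
    have h2 := hS (3 * x + 1)
    have h3 : (3 * x + 1) % 2 = 0 := by omega
    unfold T at h1 h2
    rw [if_neg h] at h1
    rw [if_pos h3] at h2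
    rw [h1, h2]

/-- the indicator function -/
noncomputable def g (S : Set ℤ) (x : ℤ) : ℝ := S.indicator (fun _ => (1 : ℝ)) x

theorem g_mem (S : Set ℤ) (x : ℤ) : 0 ≤ g S x ∧ g S x ≤ 1 := by
  classical
  unfold g
  rw [Set.indicator_apply]
  split_ifs <;> norm_num

theorem density_mem {s : ℤ} (hs : s = 1 ∨ s = -1) {S : Set ℤ} {δ : ℝ} (h : HasDensity s S δ) :
    0 ≤ δ ∧ δ ≤ 1 := by
  constructor
  · exact ge_of_tendsto' h (fun N => by positivity)
  · refine le_of_tendsto' h (fun N => ?_)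
    apply div_le_one_of_le₀ _ (Nat.cast_nonneg _)
    have h1 : {n : ℤ | 0 < s * n ∧ s * n ≤ N ∧ n ∈ S} ⊆
        (((Finset.Icc 1 N).image (fun n : ℕ => s * (n : ℤ)) : Finset ℤ) : Set ℤ) := by
      rintro n ⟨h1, h2, -⟩
      rw [Finset.mem_coe, Finset.mem_image]
      rcases hs with rfl | rfl
      · exact ⟨n.toNat, by rw [Finset.mem_Icc]; omega, by omega⟩
      · exact ⟨(-n).toNat, by rw [Finset.mem_Icc]; omega, by omega⟩
    have h2 := Set.ncard_le_ncard h1 (Finset.finite_toSet _)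
    rw [Set.ncard_coe_finset] at h2
    have h3 : ((Finset.Icc 1 N).image (fun n : ℕ => s * (n : ℤ))).card ≤ N := by
      refine card_image_le.trans ?_
      simp
    exact_mod_cast h2.trans h3

theorem spread_sign {s : ℤ} (hs : s = 1 ∨ s = -1) : Spread (fun n => s * (n : ℤ)) := by
  have h := Pool.Agent.Results.MP_d02c56_nt.SparseCoalescence.result.1
  have h1 := h.2.2.1 (fun n => (n : ℤ)) h.1 (Polynomial.C s * Polynomial.X) (by
    rw [Polynomial.natDegree_C_mul_X]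
    rcases hs with rfl | rfl <;> norm_num)
  simpa using h1

theorem shift_small {s : ℤ} (hs : s = 1 ∨ s = -1) {ε : ℝ} (hε : 0 < ε) : ∃ θ : ℝ, 0 < θ ∧ ∃ N₀ : ℕ,
    ∀ S : Set ℤ, Inv S → ∀ N : ℕ, N₀ ≤ N → ∀ h : ℕ, (h : ℝ) ≤ (N : ℝ) ^ θ →
      ∑ n ∈ Icc 1 N, |g S (s * ((n + h : ℕ) : ℤ)) - g S (s * (n : ℤ))| ≤ ε * N := by
  classical
  obtain ⟨θ, hθ, N₀, H⟩ := (Pool.Agent.Results.MP_d02c56_nt.SparseCoalescence.result.2.1
    (fun n => s * (n : ℤ)) (spread_sign hs) 1 one_pos).1 ε hε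
  refine ⟨θ, hθ, N₀ + 1, fun S hS N hN h hh => ?_⟩
  have hN0 : (1 : ℝ) ≤ N := by exact_mod_cast (by omega : 1 ≤ N)
  have h1 := H N (by omega) 0 (s * h) (by
    simp only [Nat.cast_zero]
    rw [zero_pow (by norm_num)]
    exact mul_nonneg hθ.le (Real.log_nonneg hN0)) (by
    refine le_trans (le_of_eq ?_) hh
    push_cast
    rw [abs_mul, Nat.abs_cast]
    rcases hs with rfl | rfl <;> norm_num)
  rw [Pool.Agent.Results.MP_d02c56_nt.SparseCoalescence.ncard_eq] at h1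
  refine le_trans ?_ h1
  rw [card_filter]
  push_cast
  apply sum_le_sum
  intro n _
  have e1' : 1 * (s * (n : ℤ)) + s * h = s * ((n : ℤ) + h) := by ring
  rw [e1']
  split_ifs with h2
  · have a1 := g_mem S (s * ((n : ℤ) + h))
    have a2 := g_mem S (s * (n : ℤ))
    rw [abs_le]
    constructor <;> linarith
  · push Not at h2
    have h3 : s * ((n : ℤ) + h) ∈ S ↔ s * (n : ℤ) ∈ S := by
      rw [iter_mem hS _ (s * ((n : ℤ) + h)), h2, ← iter_mem hS]
    unfold g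
    rw [Set.indicator_apply, Set.indicator_apply]
    by_cases h4 : s * (n : ℤ) ∈ S
    · rw [if_pos (h3.2 h4), if_pos h4]; simp
    · rw [if_neg (fun h5 => h4 (h3.1 h5)), if_neg h4]; simp

theorem mean_small {s : ℤ} (hs : s = 1 ∨ s = -1) {ε : ℝ} (hε : 0 < ε) : ∃ N₀ : ℕ,
    ∀ S : Set ℤ, Inv S → ∀ δ : ℝ, HasDensity s S δ → ∀ N : ℕ, N₀ ≤ N →
      |∑ n ∈ Icc 1 N, (g S (s * (n : ℤ)) - δ)| ≤ ε * N := by
  obtain ⟨N₀, H⟩ := (Pool.Agent.Results.MP_d02c56_nt.FourierUniformity.result.1 s hs).2.1 ε hε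
  refine ⟨N₀, fun S hS δ hδ N hN => ?_⟩
  obtain ⟨δ', hδ', h⟩ := H S (inv_C hS)
  rw [tendsto_nhds_unique hδ hδ']
  have h1 := h N hN 0
  unfold Pool.Agent.Results.MP_d02c56_nt.FourierUniformity.e at h1
  simp only [zero_mul, Complex.ofReal_zero, mul_zero, Complex.exp_zero, mul_one] at h1
  rw [← Complex.ofReal_sum, Complex.norm_real, Real.norm_eq_abs] at h1
  exact h1

/-- shifting a sum of bounded terms -/
theorem sum_shift (F : ℕ → ℝ) (hF : ∀ n, |F n| ≤ 1) (N h : ℕ) :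
    |∑ n ∈ Icc 1 N, F n - ∑ n ∈ Icc 1 N, F (n + h)| ≤ 2 * h := by
  induction h with
  | zero => simp
  | succ h ih =>
    have h1 : ∑ n ∈ Icc 1 N, F (n + h) - ∑ n ∈ Icc 1 N, F (n + (h + 1)) = F (1 + h) - F (N + 1 + h) := by
      clear ih
      induction N with
      | zero => simp
      | succ N ih2 =>
        rw [sum_Icc_succ_top (by omega), sum_Icc_succ_top (by omega)]
        have e : F (N + 1 + (h + 1)) = F (N + 1 + 1 + h) := by congr 1; ring
        rw [e]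
        linarith
    have h2 : |F (1 + h) - F (N + 1 + h)| ≤ 2 := by
      have a1 := abs_le.1 (hF (1 + h))
      have a2 := abs_le.1 (hF (N + 1 + h))
      rw [abs_le]; constructor <;> linarith
    have h3 : ∑ n ∈ Icc 1 N, F n - ∑ n ∈ Icc 1 N, F (n + (h + 1)) =
        (∑ n ∈ Icc 1 N, F n - ∑ n ∈ Icc 1 N, F (n + h)) + (F (1 + h) - F (N + 1 + h)) := by
      rw [← h1]; ring
    rw [h3]
    refine (abs_add_le _ _).trans ?_
    push_cast
    linarith

/-- THE WINDOW PRINCIPLE -/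
theorem principle {s : ℤ} (hs : s = 1 ∨ s = -1) {ε : ℝ} (hε : 0 < ε) : ∃ θ : ℝ, 0 < θ ∧ ∃ N₀ : ℕ,
    ∀ S : Set ℤ, Inv S → ∀ δ : ℝ, HasDensity s S δ → ∀ N : ℕ, N₀ ≤ N → ∀ H : ℕ, 1 ≤ H →
      (H : ℝ) ≤ (N : ℝ) ^ θ → ∀ w : ℕ → ℝ, (∀ n, |w n| ≤ 1) → ∀ c : ℝ,
      |∑ n ∈ Icc 1 N, (g S (s * (n : ℤ)) - δ) * w n| ≤ ε * N +
        ∑ n ∈ Icc 1 N, |(H : ℝ)⁻¹ * ∑ h ∈ range H, w (n + h) - c| := by
  obtain ⟨θ, hθ, N₁, H1⟩ := shift_small hs (show 0 < ε / 3 by positivity)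
  obtain ⟨N₂, H2⟩ := mean_small hs (show 0 < ε / 6 by positivity)
  obtain ⟨N₃, hN₃⟩ := exists_nat_gt ((6 / ε) ^ 2)
  refine ⟨min θ (1 / 2), lt_min hθ (by norm_num), N₁ + N₂ + N₃ + 1, fun S hS δ hδ N hN H hH hHN w hw c => ?_⟩
  have hδ01 := density_mem hs hδ
  have hNR : (1 : ℝ) ≤ N := by exact_mod_cast (by omega : 1 ≤ N)
  have hN0 : (0 : ℝ) < N := by linarith
  have hH0 : (0 : ℝ) < H := by exact_mod_cast (by omega : 0 < H)
  set G : ℕ → ℝ := fun n => g S (s * (n : ℤ)) - δ with hG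
  have hG1 : ∀ n, |G n| ≤ 1 := by
    intro n
    have := g_mem S (s * (n : ℤ))
    simp only [hG]
    rw [abs_le]; constructor <;> linarith [hδ01.1, hδ01.2]
  have hF1 : ∀ n, |G n * w n| ≤ 1 := by
    intro n
    rw [abs_mul]
    calc |G n| * |w n| ≤ 1 * 1 := mul_le_mul (hG1 n) (hw n) (abs_nonneg _) zero_le_one
      _ = 1 := one_mul _
  -- the trivial case
  have htriv : |∑ n ∈ Icc 1 N, G n * w n| ≤ N := by
    refine (abs_sum_le_sum_abs _ _).trans ?_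
    calc _ ≤ ∑ _n ∈ Icc 1 N, (1 : ℝ) := sum_le_sum fun n _ => hF1 n
      _ = N := by simp
  have hAw : ∀ n, |(H : ℝ)⁻¹ * ∑ h ∈ range H, w (n + h)| ≤ 1 := by
    intro n
    rw [abs_mul, abs_of_pos (inv_pos.2 hH0), inv_mul_le_iff₀ hH0, mul_one]
    refine (abs_sum_le_sum_abs _ _).trans ?_
    calc _ ≤ ∑ _h ∈ range H, (1 : ℝ) := sum_le_sum fun n _ => hw _
      _ = H := by simp
  rcases le_or_gt |c| 2 with hc | hc
  swap
  · refine htriv.trans ?_
    have h1 : (N : ℝ) ≤ ∑ n ∈ Icc 1 N, |(H : ℝ)⁻¹ * ∑ h ∈ range H, w (n + h) - c| := by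
      calc (N : ℝ) = ∑ _n ∈ Icc 1 N, (1 : ℝ) := by simp
        _ ≤ _ := by
          apply sum_le_sum; intro n _
          have h2 := abs_sub_abs_le_abs_sub c ((H : ℝ)⁻¹ * ∑ h ∈ range H, w (n + h))
          rw [abs_sub_comm] at h2
          linarith [hAw n]
    have h2 : 0 ≤ ε * N := by positivity
    linarith
  -- the main case
  have hpow : (H : ℝ) ≤ (N : ℝ) ^ θ := hHN.trans (Real.rpow_le_rpow_of_exponent_le hNR (min_le_left _ _))
  have hpow2 : (H : ℝ) ≤ ε / 6 * N := by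
    have h1 : (H : ℝ) ≤ (N : ℝ) ^ (1 / 2 : ℝ) := hHN.trans (Real.rpow_le_rpow_of_exponent_le hNR (min_le_right _ _))
    rw [← Real.sqrt_eq_rpow] at h1
    have h2 : 6 / ε ≤ √ (N : ℝ) := by
      apply Real.le_sqrt_of_sq_le
      refine hN₃.le.trans ?_
      exact_mod_cast (by omega : N₃ ≤ N)
    have h3 : √ (N : ℝ) * √ (N : ℝ) = N := Real.mul_self_sqrt hN0.le
    have h4 : √ (N : ℝ) ≤ ε / 6 * N := by
      calc √ (N : ℝ) = ε / 6 * (6 / ε * √ (N : ℝ)) := by field_simp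
        _ ≤ ε / 6 * (√ (N : ℝ) * √ (N : ℝ)) := by
            apply mul_le_mul_of_nonneg_left _ (by positivity)
            exact mul_le_mul_of_nonneg_right h2 (Real.sqrt_nonneg _)
        _ = _ := by rw [h3]
    exact h1.trans h4
  have step : ∀ h ∈ range H, |∑ n ∈ Icc 1 N, G n * w n - ∑ n ∈ Icc 1 N, G n * w (n + h)| ≤
      2 * H + ε / 3 * N := by
    intro h hh
    rw [mem_range] at hh
    have hhR : (h : ℝ) ≤ H := by exact_mod_cast hh.le
    have a1 := sum_shift (fun n => G n * w n) hF1 N h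
    have a2 := H1 S hS N (by omega) h (hhR.trans hpow)
    have a3 : |∑ n ∈ Icc 1 N, G (n + h) * w (n + h) - ∑ n ∈ Icc 1 N, G n * w (n + h)| ≤ ε / 3 * N := by
      rw [← sum_sub_distrib]
      refine (abs_sum_le_sum_abs _ _).trans (le_trans ?_ a2)
      apply sum_le_sum; intro n _
      rw [← sub_mul, abs_mul]
      have e1 : G (n + h) - G n = g S (s * ((n + h : ℕ) : ℤ)) - g S (s * (n : ℤ)) := by
        simp only [hG]; ring
      rw [e1]
      calc _ ≤ |g S (s * ((n + h : ℕ) : ℤ)) - g S (s * (n : ℤ))| * 1 :=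
            mul_le_mul_of_nonneg_left (hw _) (abs_nonneg _)
        _ = _ := mul_one _
    have e2 : ∑ n ∈ Icc 1 N, G n * w n - ∑ n ∈ Icc 1 N, G n * w (n + h) =
        (∑ n ∈ Icc 1 N, G n * w n - ∑ n ∈ Icc 1 N, G (n + h) * w (n + h)) +
        (∑ n ∈ Icc 1 N, G (n + h) * w (n + h) - ∑ n ∈ Icc 1 N, G n * w (n + h)) := by ring
    rw [e2]
    refine (abs_add_le _ _).trans ?_
    linarith
  have h5 : |∑ n ∈ Icc 1 N, G n * w n - ∑ n ∈ Icc 1 N, G n * ((H : ℝ)⁻¹ * ∑ h ∈ range H, w (n + h))| ≤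
      2 * H + ε / 3 * N := by
    have e3 : ∑ n ∈ Icc 1 N, G n * w n - ∑ n ∈ Icc 1 N, G n * ((H : ℝ)⁻¹ * ∑ h ∈ range H, w (n + h)) =
        (H : ℝ)⁻¹ * ∑ h ∈ range H, (∑ n ∈ Icc 1 N, G n * w n - ∑ n ∈ Icc 1 N, G n * w (n + h)) := by
      rw [sum_sub_distrib, sum_const, card_range, nsmul_eq_mul, sum_comm, mul_sub, ← mul_assoc,
        inv_mul_cancel₀ hH0.ne', one_mul]
      congr 1
      rw [mul_sum]
      apply sum_congr rfl; intro n _
      rw [← mul_sum]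
      ring
    rw [e3, abs_mul, abs_of_pos (inv_pos.2 hH0), inv_mul_le_iff₀ hH0]
    refine (abs_sum_le_sum_abs _ _).trans ?_
    calc _ ≤ ∑ _h ∈ range H, (2 * (H : ℝ) + ε / 3 * N) := sum_le_sum step
      _ = _ := by rw [sum_const, card_range, nsmul_eq_mul]
  have h6 : |∑ n ∈ Icc 1 N, G n * ((H : ℝ)⁻¹ * ∑ h ∈ range H, w (n + h))| ≤
      ∑ n ∈ Icc 1 N, |(H : ℝ)⁻¹ * ∑ h ∈ range H, w (n + h) - c| + ε / 3 * N := by
    have e4 : ∑ n ∈ Icc 1 N, G n * ((H : ℝ)⁻¹ * ∑ h ∈ range H, w (n + h)) =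
        ∑ n ∈ Icc 1 N, G n * ((H : ℝ)⁻¹ * ∑ h ∈ range H, w (n + h) - c) + c * ∑ n ∈ Icc 1 N, G n := by
      rw [mul_sum, ← sum_add_distrib]
      apply sum_congr rfl; intro n _
      ring
    rw [e4]
    refine (abs_add_le _ _).trans (add_le_add ?_ ?_)
    · refine (abs_sum_le_sum_abs _ _).trans (sum_le_sum fun n _ => ?_)
      rw [abs_mul]
      calc _ ≤ 1 * |(H : ℝ)⁻¹ * ∑ h ∈ range H, w (n + h) - c| :=
            mul_le_mul_of_nonneg_right (hG1 n) (abs_nonneg _)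
        _ = _ := one_mul _
    · rw [abs_mul]
      calc |c| * |∑ n ∈ Icc 1 N, G n| ≤ 2 * (ε / 6 * N) :=
            mul_le_mul hc (H2 S hS δ hδ N (by omega)) (abs_nonneg _) (by norm_num)
        _ = _ := by ring
  have h7 : |∑ n ∈ Icc 1 N, G n * w n| ≤ |∑ n ∈ Icc 1 N, G n * w n -
      ∑ n ∈ Icc 1 N, G n * ((H : ℝ)⁻¹ * ∑ h ∈ range H, w (n + h))| +
      |∑ n ∈ Icc 1 N, G n * ((H : ℝ)⁻¹ * ∑ h ∈ range H, w (n + h))| := by
    refine le_trans (le_of_eq ?_) (abs_add_le _ _)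
    congr 1; ring
  have h8 : 2 * (H : ℝ) ≤ ε / 3 * N := by linarith
  calc |∑ n ∈ Icc 1 N, G n * w n| ≤ (2 * H + ε / 3 * N) +
      (∑ n ∈ Icc 1 N, |(H : ℝ)⁻¹ * ∑ h ∈ range H, w (n + h) - c| + ε / 3 * N) := h7.trans (add_le_add h5 h6)
    _ ≤ _ := by linarith

end Pool.Agent.Q49.PE
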