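import Mathlib
import Pool.Agent.Q49.PE.Win
import Pool.Agent.Q182.Dom

/-!
# The pointwise ergodic theorem weighted by `1_S - δ`, uniformly in the invariant set `S`
-/

set_option autoImplicit false

namespace Pool.Agent.Q49.PE

open Finset Filter Topology MeasureTheory
open Pool.Agent.Results.MP_d02c56_nt.FourierUniformity (HasDensity)

set_option linter.unusedSectionVars false

variable {X : Type*} [MeasurableSpace X]

/-- truncation -/
noncomputable def tr (K : ℕ) (f : X → ℝ) (x : X) : ℝ := max (-(K : ℝ)) (min K (f x))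

theorem tr_meas (K : ℕ) {f : X → ℝ} (hf : Measurable f) : Measurable (tr K f) :=
  measurable_const.max (measurable_const.min hf)

theorem tr_le (K : ℕ) (f : X → ℝ) (x : X) : |tr K f x| ≤ K := by
  unfold tr
  rw [abs_le]
  refine ⟨le_max_left _ _, max_le ?_ (min_le_left _ _)⟩
  have : (0 : ℝ) ≤ K := Nat.cast_nonneg K
  linarith

theorem tr_sub (K : ℕ) (f : X → ℝ) (x : X) : |f x - tr K f x| ≤ |f x| := by
  have hN : (0 : ℝ) ≤ K := Nat.cast_nonneg K
  unfold tr
  rcases le_total (f x) K with h1 | h1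
  · rw [min_eq_right h1]
    rcases le_total (-(K : ℝ)) (f x) with h2 | h2
    · rw [max_eq_right h2]; simp
    · rw [max_eq_left h2, abs_of_nonpos (by linarith), abs_of_nonpos (by linarith)]; linarith
  · rw [min_eq_left h1, max_eq_right (by linarith), abs_of_nonneg (by linarith),
      abs_of_nonneg (by linarith)]
    linarith

theorem tr_eventually (f : X → ℝ) (x : X) : ∀ᶠ K : ℕ in atTop, tr K f x = f x := by
  obtain ⟨N0, hN0⟩ := exists_nat_ge |f x|
  filter_upwards [eventually_ge_atTop N0] with N hN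
  have h1 : |f x| ≤ N := hN0.trans (by exact_mod_cast hN)
  rw [abs_le] at h1
  unfold tr
  rw [min_eq_right h1.2, max_eq_right h1.1]

theorem tr_int {m : Measure X} [IsProbabilityMeasure m] (K : ℕ) {f : X → ℝ} (hf : Measurable f) :
    Integrable (tr K f) m :=
  Integrable.mono' (integrable_const (K : ℝ)) (tr_meas K hf).aestronglyMeasurable
    (Eventually.of_forall fun x => tr_le K f x)

theorem rest_small {m : Measure X} [IsProbabilityMeasure m] {f : X → ℝ} (hf : Measurable f)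
    (hi : Integrable f m) : Tendsto (fun K : ℕ => ∫ x, |f x - tr K f x| ∂m) atTop (𝓝 0) := by
  have h := tendsto_integral_of_dominated_convergence (μ := m) (F := fun (K : ℕ) x => |f x - tr K f x|)
    (f := fun _ => (0 : ℝ)) (fun x => |f x|) (fun K => ((hf.sub (tr_meas K hf)).abs).aestronglyMeasurable)
    hi.abs (fun K => Eventually.of_forall fun x => by
      rw [Real.norm_eq_abs, abs_abs]; exact tr_sub K f x)
    (Eventually.of_forall fun x => by
      apply tendsto_const_nhds.congr'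
      filter_upwards [tr_eventually f x] with K hK
      rw [hK, sub_self, abs_zero])
  simpa using h

/-- the window error -/
noncomputable def win (m : Measure X) (R : X → X) (F : X → ℝ) (H : ℕ) (x : X) : ℝ :=
  |(H : ℝ)⁻¹ * ∑ k ∈ range H, F (R^[k] x) - (m[F | MeasurableSpace.invariants R]) x|

theorem win_small {m : Measure X} [IsProbabilityMeasure m] {R : X → X} (hR : MeasurePreserving R m m)
    {F : X → ℝ} (hF : Measurable F) {K : ℝ} (hK : 0 ≤ K) (hb : ∀ x, |F x| ≤ K) :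
    (∀ H, Integrable (win m R F H) m) ∧ (∀ H, Measurable (win m R F H)) ∧
      Tendsto (fun H : ℕ => ∫ x, win m R F H x ∂m) atTop (𝓝 0) := by
  have hm : Measurable (m[F | MeasurableSpace.invariants R]) :=
    (stronglyMeasurable_condExp.measurable).mono (MeasurableSpace.invariants_le R) le_rfl
  have hbd : ∀ᵐ x ∂m, |(m[F | MeasurableSpace.invariants R]) x| ≤ K :=
    ae_bdd_abs_condExp_of_ae_bdd_abs (m := MeasurableSpace.invariants R) (μ := m)
      (f := F) (R := K) (Filter.Eventually.of_forall hb)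
  have hmeas : ∀ H, Measurable (win m R F H) := by
    intro H
    unfold win
    refine (Measurable.sub ?_ hm).abs
    apply Measurable.const_mul
    exact Finset.measurable_sum _ fun k _ => hF.comp (hR.measurable.iterate k)
  have hbound : ∀ H, ∀ᵐ x ∂m, ‖win m R F H x‖ ≤ 2 * K := by
    intro H
    filter_upwards [hbd] with x hx
    unfold win
    rw [Real.norm_eq_abs, abs_abs]
    have h1 : |(H : ℝ)⁻¹ * ∑ k ∈ range H, F (R^[k] x)| ≤ K := by
      rcases Nat.eq_zero_or_pos H with h0 | h0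
      · subst h0; simpa using hK
      · have hH0 : (0 : ℝ) < H := by exact_mod_cast h0
        rw [abs_mul, abs_of_pos (inv_pos.2 hH0), inv_mul_le_iff₀ hH0]
        refine (abs_sum_le_sum_abs _ _).trans ?_
        calc _ ≤ ∑ _k ∈ range H, K := sum_le_sum fun k _ => hb _
          _ = H * K := by rw [sum_const, card_range, nsmul_eq_mul]
    refine (abs_sub _ _).trans ?_
    linarith
  refine ⟨fun H => Integrable.mono' (integrable_const (2 * K)) (hmeas H).aestronglyMeasurable (hbound H), hmeas, ?_⟩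
  have h := tendsto_integral_of_dominated_convergence (μ := m) (F := fun (H : ℕ) x => win m R F H x)
    (f := fun _ => (0 : ℝ)) (fun _ => 2 * K) (fun H => (hmeas H).aestronglyMeasurable)
    (integrable_const _) hbound (by
      filter_upwards [Pool.Agent.H165R3.BPE.birkhoff hR F hF K hb] with x hx
      have h1 := (hx.sub_const ((m[F | MeasurableSpace.invariants R]) x)).abs
      rw [sub_self, abs_zero] at h1
      exact h1)
  simpa using h

theorem ae_exists_lt {m : Measure X} [IsProbabilityMeasure m] (L : ℕ → X → ℝ) (hL : ∀ j, Integrable (L j) m)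
    (h0 : ∀ j, 0 ≤ᵐ[m] L j) (h1 : ∀ j : ℕ, ∫ x, L j x ∂m ≤ 1 / ((j : ℝ) + 1)) :
    ∀ᵐ x ∂m, ∀ ε : ℝ, 0 < ε → ∃ j, L j x < ε := by
  have key : ∀ i : ℕ, ∀ᵐ x ∂m, ∃ j, L j x < 1 / ((i : ℝ) + 1) := by
    intro i
    set A : Set X := {x | ¬ ∃ j, L j x < 1 / ((i : ℝ) + 1)} with hA
    change m A = 0
    have hi0 : (0 : ℝ) < 1 / ((i : ℝ) + 1) := by positivity
    have h2 : ∀ j : ℕ, m.real A ≤ ((i : ℝ) + 1) * (1 / ((j : ℝ) + 1)) := by
      intro j
      have h3 := mul_meas_ge_le_integral_of_nonneg (h0 j) (hL j) (1 / ((i : ℝ) + 1))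
      have h4 : A ⊆ {x | 1 / ((i : ℝ) + 1) ≤ L j x} := by
        intro x hx
        rw [hA, Set.mem_ofPred_eq] at hx
        push Not at hx
        exact hx j
      have h5 : m.real A ≤ m.real {x | 1 / ((i : ℝ) + 1) ≤ L j x} := measureReal_mono h4
      have h6 : 1 / ((i : ℝ) + 1) * m.real A ≤ 1 / ((j : ℝ) + 1) :=
        ((mul_le_mul_of_nonneg_left h5 hi0.le).trans h3).trans (h1 j)
      calc m.real A = ((i : ℝ) + 1) * (1 / ((i : ℝ) + 1) * m.real A) := by field_simp
        _ ≤ _ := mul_le_mul_of_nonneg_left h6 (by positivity)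
    have h7 : m.real A ≤ 0 := by
      have h8 : Tendsto (fun j : ℕ => ((i : ℝ) + 1) * (1 / ((j : ℝ) + 1))) atTop (𝓝 (((i : ℝ) + 1) * 0)) :=
        (tendsto_one_div_add_atTop_nhds_zero_nat (𝕜 := ℝ)).const_mul _
      rw [mul_zero] at h8
      exact ge_of_tendsto' h8 h2
    have h9 : m.real A = 0 := le_antisymm h7 measureReal_nonneg
    exact (measureReal_eq_zero_iff).1 h9
  rw [← ae_all_iff] at key
  filter_upwards [key] with x hx ε hε
  obtain ⟨i, hi⟩ := exists_nat_one_div_lt hε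
  obtain ⟨j, hj⟩ := hx i
  exact ⟨j, hj.trans hi⟩

/-- the pointwise ergodic theorem with the weights `1_S - δ`, uniformly in `S` -/
theorem pointwise_meas {s : ℤ} (hs : s = 1 ∨ s = -1) {m : Measure X} [IsProbabilityMeasure m] {R : X → X}
    (hR : MeasurePreserving R m m) {f : X → ℝ} (hf : Measurable f) (hi : Integrable f m) :
    ∀ᵐ x ∂m, ∀ ε : ℝ, 0 < ε → ∃ N₀ : ℕ, ∀ S : Set ℤ, Inv S → ∀ δ : ℝ, HasDensity s S δ →
      ∀ N : ℕ, N₀ ≤ N → |∑ n ∈ Icc 1 N, (g S (s * (n : ℤ)) - δ) * f (R^[n] x)| ≤ ε * N := by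
  -- the choice of the parameters
  have hex : ∀ j : ℕ, ∃ K H : ℕ, 1 ≤ K ∧ 1 ≤ H ∧
      ∫ x, (|f x - tr K f x| + win m R (tr K f) H x) ∂m ≤ 1 / ((j : ℝ) + 1) := by
    intro j
    have hj : (0 : ℝ) < 1 / ((j : ℝ) + 1) / 2 := by positivity
    obtain ⟨K, hK1, hK2⟩ := (((tendsto_order.1 (rest_small hf hi)).2 _ hj).and (eventually_ge_atTop 1)).exists
    obtain ⟨h1, -, h2⟩ := win_small hR (tr_meas K hf) (Nat.cast_nonneg K) (tr_le K f)
    obtain ⟨H, hH1, hH2⟩ := (((tendsto_order.1 h2).2 _ hj).and (eventually_ge_atTop 1)).exists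
    refine ⟨K, H, hK2, hH2, ?_⟩
    rw [integral_add (f := fun x => |f x - tr K f x|) (g := win m R (tr K f) H) ((hi.sub (tr_int K hf)).abs) (h1 H)]
    linarith
  choose K H hK hH hint using hex
  set ψ : ℕ → X → ℝ := fun j x => |f x - tr (K j) f x| + win m R (tr (K j) f) (H j) x with hψ
  have hψm : ∀ j, Measurable (ψ j) := fun j =>
    ((hf.sub (tr_meas (K j) hf)).abs).add ((win_small hR (tr_meas (K j) hf) (Nat.cast_nonneg _) (tr_le _ f)).2.1 _)
  have hψi : ∀ j, Integrable (ψ j) m := fun j =>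
    ((hi.sub (tr_int (K j) hf)).abs).add ((win_small hR (tr_meas (K j) hf) (Nat.cast_nonneg _) (tr_le _ f)).1 _)
  have hψ0 : ∀ j x, 0 ≤ ψ j x := fun j x => by
    simp only [hψ, win]
    positivity
  set L : ℕ → X → ℝ := fun j => m[ψ j | MeasurableSpace.invariants R] with hL
  have hle := MeasurableSpace.invariants_le R
  have hae := ae_exists_lt L (fun j => integrable_condExp) (fun j => condExp_nonneg (Eventually.of_forall (hψ0 j)))
    (fun j => by
      simp only [hL]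
      rw [integral_condExp hle]
      exact hint j)
  have hbir : ∀ᵐ x ∂m, ∀ j, Tendsto (fun n => Pool.Agent.Q182.Dom.A R (ψ j) n x) atTop (𝓝 (L j x)) := by
    rw [ae_all_iff]
    intro j
    exact Pool.Agent.Q182.Dom.birkhoff hR (hψm j) (hψi j)
  filter_upwards [hae, hbir] with x hx1 hx2 ε hε
  obtain ⟨j, hj⟩ := hx1 (ε / 4) (by positivity)
  have hKj : (1 : ℝ) ≤ K j := by exact_mod_cast hK j
  have hK0 : (0 : ℝ) < K j := by linarith
  have hH0 : (0 : ℝ) < H j := by exact_mod_cast (by have := hH j; omega : 0 < H j)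
  obtain ⟨θ, hθ, N₁, hN₁⟩ := principle hs (show 0 < ε / (2 * K j) by positivity)
  obtain ⟨N₂, hN₂⟩ := eventually_atTop.1 ((tendsto_order.1 (hx2 j)).2 _ hj)
  have h3 : ∀ᶠ N : ℕ in atTop, (H j : ℝ) ≤ (N : ℝ) ^ θ :=
    ((tendsto_rpow_atTop hθ).comp tendsto_natCast_atTop_atTop).eventually_ge_atTop _
  obtain ⟨N₃, hN₃⟩ := eventually_atTop.1 h3
  refine ⟨N₁ + N₂ + N₃ + 1, fun S hS δ hδ N hN => ?_⟩
  have hδ01 := density_mem hs hδ
  have hNR : (1 : ℝ) ≤ N := by exact_mod_cast (by omega : 1 ≤ N)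
  -- the sum of psi
  have hsum : ∑ n ∈ Icc 1 N, ψ j (R^[n] x) ≤ ε / 2 * N := by
    have a1 := hN₂ (N + 1) (by omega)
    unfold Pool.Agent.Q182.Dom.A at a1
    have a2 : (0 : ℝ) < ((N + 1 : ℕ) : ℝ) := by positivity
    rw [inv_mul_lt_iff₀ a2] at a1
    have a3 : ∑ n ∈ Icc 1 N, ψ j (R^[n] x) ≤ ∑ k ∈ range (N + 1), ψ j (R^[k] x) := by
      apply sum_le_sum_of_subset_of_nonneg
      · intro n hn
        rw [Finset.mem_Icc] at hn
        rw [Finset.mem_range]; omega
      · intro n _ _; exact hψ0 j _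
    push_cast at a1
    nlinarith
  -- invariance of the conditional expectation
  set E : X → ℝ := m[tr (K j) f | MeasurableSpace.invariants R] with hE
  have hEinv : ∀ n : ℕ, ∀ y, E (R^[n] y) = E y := by
    have hcm : Measurable[MeasurableSpace.invariants R] E := stronglyMeasurable_condExp.measurable
    have h4 : ∀ y, E (R y) = E y := fun y =>
      congrFun (MeasurableSpace.comp_eq_of_measurable_invariants hcm) y
    intro n
    induction n with
    | zero => intro y; rfl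
    | succ n ih => intro y; rw [Function.iterate_succ_apply, ih, h4]
  -- the principle
  have h5 := hN₁ S hS δ hδ N (by omega) (H j) (hH j) (hN₃ N (by omega)) (fun n => tr (K j) f (R^[n] x) / K j)
    (fun n => by
      rw [abs_div, abs_of_pos hK0, div_le_one hK0]
      exact tr_le _ _ _) (E x / K j)
  have h6 : ∀ n : ℕ, |(H j : ℝ)⁻¹ * ∑ h ∈ range (H j), tr (K j) f (R^[n + h] x) / K j - E x / K j| =
      win m R (tr (K j) f) (H j) (R^[n] x) / K j := by
    intro n
    unfold win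
    rw [← sum_div, ← mul_div_assoc, ← sub_div, abs_div, abs_of_pos hK0]
    congr 2
    rw [show (m[tr (K j) f | MeasurableSpace.invariants R]) (R^[n] x) = E x from hEinv n x]
    congr 2
    apply sum_congr rfl; intro h _
    rw [← Function.iterate_add_apply, add_comm]
  simp only [h6] at h5
  have h7 : |∑ n ∈ Icc 1 N, (g S (s * (n : ℤ)) - δ) * tr (K j) f (R^[n] x)| ≤
      ε / 2 * N + ∑ n ∈ Icc 1 N, win m R (tr (K j) f) (H j) (R^[n] x) := by
    have e1 : ∑ n ∈ Icc 1 N, (g S (s * (n : ℤ)) - δ) * (tr (K j) f (R^[n] x) / K j) =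
        (∑ n ∈ Icc 1 N, (g S (s * (n : ℤ)) - δ) * tr (K j) f (R^[n] x)) / K j := by
      rw [sum_div]
      apply sum_congr rfl; intro n _
      ring
    rw [e1, ← sum_div, abs_div, abs_of_pos hK0, div_le_iff₀ hK0, add_mul, div_mul_cancel₀ _ hK0.ne'] at h5
    refine h5.trans (le_of_eq ?_)
    congr 1
    field_simp
  have h8 : |∑ n ∈ Icc 1 N, (g S (s * (n : ℤ)) - δ) * (f (R^[n] x) - tr (K j) f (R^[n] x))| ≤
      ∑ n ∈ Icc 1 N, |f (R^[n] x) - tr (K j) f (R^[n] x)| := by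
    refine (abs_sum_le_sum_abs _ _).trans (sum_le_sum fun n _ => ?_)
    rw [abs_mul]
    have a1 := g_mem S (s * (n : ℤ))
    have a2 : |g S (s * (n : ℤ)) - δ| ≤ 1 := by rw [abs_le]; constructor <;> linarith [hδ01.1, hδ01.2]
    calc _ ≤ 1 * |f (R^[n] x) - tr (K j) f (R^[n] x)| := mul_le_mul_of_nonneg_right a2 (abs_nonneg _)
      _ = _ := one_mul _
  have h9 : ∑ n ∈ Icc 1 N, (g S (s * (n : ℤ)) - δ) * f (R^[n] x) =
      ∑ n ∈ Icc 1 N, (g S (s * (n : ℤ)) - δ) * tr (K j) f (R^[n] x) +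
      ∑ n ∈ Icc 1 N, (g S (s * (n : ℤ)) - δ) * (f (R^[n] x) - tr (K j) f (R^[n] x)) := by
    rw [← sum_add_distrib]
    apply sum_congr rfl; intro n _
    ring
  rw [h9]
  refine (abs_add_le _ _).trans ?_
  have h10 : ∑ n ∈ Icc 1 N, ψ j (R^[n] x) = ∑ n ∈ Icc 1 N, |f (R^[n] x) - tr (K j) f (R^[n] x)| +
      ∑ n ∈ Icc 1 N, win m R (tr (K j) f) (H j) (R^[n] x) := by
    rw [← sum_add_distrib]
  linarith

theorem pointwise {s : ℤ} (hs : s = 1 ∨ s = -1) {m : Measure X} [IsProbabilityMeasure m] {R : X → X}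
    (hR : MeasurePreserving R m m) {f : X → ℝ} (hi : Integrable f m) :
    ∀ᵐ x ∂m, ∀ ε : ℝ, 0 < ε → ∃ N₀ : ℕ, ∀ S : Set ℤ, Inv S → ∀ δ : ℝ, HasDensity s S δ →
      ∀ N : ℕ, N₀ ≤ N → |∑ n ∈ Icc 1 N, (g S (s * (n : ℤ)) - δ) * f (R^[n] x)| ≤ ε * N := by
  set f' := hi.aestronglyMeasurable.mk f with hf'
  have h1 : f =ᵐ[m] f' := hi.aestronglyMeasurable.ae_eq_mk
  have h2 : Measurable f' := hi.aestronglyMeasurable.stronglyMeasurable_mk.measurable
  have h3 : Integrable f' m := hi.congr h1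
  have h4 : ∀ᵐ x ∂m, ∀ n : ℕ, f (R^[n] x) = f' (R^[n] x) := by
    rw [ae_all_iff]
    intro n
    exact (hR.iterate n).quasiMeasurePreserving.ae h1
  filter_upwards [pointwise_meas hs hR h2 h3, h4] with x hx hx4 ε hε
  obtain ⟨N₀, hN₀⟩ := hx ε hε
  refine ⟨N₀, fun S hS δ hδ N hN => ?_⟩
  simp only [hx4]
  exact hN₀ S hS δ hδ N hN

/-- convergence of the weighted averages -/
theorem pointwise_lim {s : ℤ} (hs : s = 1 ∨ s = -1) {m : Measure X} [IsProbabilityMeasure m] {R : X → X}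
    (hR : MeasurePreserving R m m) {f : X → ℝ} (hi : Integrable f m) :
    ∀ᵐ x ∂m, ∀ S : Set ℤ, Inv S → ∀ δ : ℝ, HasDensity s S δ →
      Tendsto (fun N : ℕ => (N : ℝ)⁻¹ * ∑ n ∈ Icc 1 N, g S (s * (n : ℤ)) * f (R^[n] x)) atTop
        (𝓝 (δ * (m[f | MeasurableSpace.invariants R]) x)) := by
  set f' := hi.aestronglyMeasurable.mk f with hf'
  have h1 : f =ᵐ[m] f' := hi.aestronglyMeasurable.ae_eq_mk
  have h2 : Measurable f' := hi.aestronglyMeasurable.stronglyMeasurable_mk.measurable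
  have h3 : Integrable f' m := hi.congr h1
  have h4 : ∀ᵐ x ∂m, ∀ n : ℕ, f (R^[n] x) = f' (R^[n] x) := by
    rw [ae_all_iff]
    intro n
    exact (hR.iterate n).quasiMeasurePreserving.ae h1
  have h5 : m[f | MeasurableSpace.invariants R] =ᵐ[m] m[f' | MeasurableSpace.invariants R] := condExp_congr_ae h1
  filter_upwards [pointwise hs hR hi, h4, h5, Pool.Agent.Q182.Dom.birkhoff hR h2 h3] with x hx hx4 hx5 hx6 S hS δ hδ
  -- the unweighted averages
  have a1 : Tendsto (fun N : ℕ => (N : ℝ)⁻¹ * ∑ n ∈ Icc 1 N, f (R^[n] x)) atTop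
      (𝓝 ((m[f | MeasurableSpace.invariants R]) x)) := by
    rw [hx5]
    have b1 : ∀ N : ℕ, (N : ℝ)⁻¹ * ∑ n ∈ Icc 1 N, f (R^[n] x) =
        Pool.Agent.Q182.Dom.A R f' N x + (N : ℝ)⁻¹ * (f' (R^[N] x) - f' x) := by
      intro N
      unfold Pool.Agent.Q182.Dom.A
      rw [← mul_add]
      congr 1
      simp only [hx4]
      have b2 : ∑ n ∈ Icc 1 N, f' (R^[n] x) = ∑ k ∈ range N, f' (R^[k + 1] x) := by
        rw [range_eq_Ico, sum_Ico_add' (fun n => f' (R^[n] x)) 0 N 1]
        apply sum_congr _ (fun _ _ => rfl)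
        ext n; simp [Finset.mem_Icc, Finset.mem_Ico]
      rw [b2]
      have b3 := sum_range_succ (fun n => f' (R^[n] x)) N
      rw [sum_range_succ' (fun n => f' (R^[n] x)) N] at b3
      simp only [Function.iterate_zero, id_eq] at b3
      linarith
    simp only [b1]
    rw [← add_zero ((m[f' | MeasurableSpace.invariants R]) x)]
    refine hx6.add ?_
    -- the boundary terms tend to zero
    have b4 : ∀ N : ℕ, (N : ℝ)⁻¹ * (f' (R^[N] x) - f' x) =
        (((N : ℝ) + 1) / N) * Pool.Agent.Q182.Dom.A R f' (N + 1) x - Pool.Agent.Q182.Dom.A R f' N x -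
          (N : ℝ)⁻¹ * f' x := by
      intro N
      unfold Pool.Agent.Q182.Dom.A
      rw [sum_range_succ]
      rcases Nat.eq_zero_or_pos N with h0 | h0
      · subst h0; simp
      · have hN0 : (N : ℝ) ≠ 0 := by exact_mod_cast h0.ne'
        have hN1 : (N : ℝ) + 1 ≠ 0 := by positivity
        push_cast
        field_simp
        ring
    simp only [b4]
    have b5 : Tendsto (fun N : ℕ => ((N : ℝ) + 1) / N) atTop (𝓝 1) := by
      have : Tendsto (fun N : ℕ => 1 + 1 / (N : ℝ)) atTop (𝓝 (1 + 0)) :=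
        tendsto_const_nhds.add tendsto_one_div_atTop_nhds_zero_nat
      rw [add_zero] at this
      refine this.congr' ?_
      filter_upwards [eventually_gt_atTop 0] with N hN
      have hN0 : (N : ℝ) ≠ 0 := by exact_mod_cast (by omega : N ≠ 0)
      field_simp
    have b6 := (b5.mul (hx6.comp (tendsto_add_atTop_nat 1))).sub hx6
    have b7 : Tendsto (fun N : ℕ => (N : ℝ)⁻¹ * f' x) atTop (𝓝 (0 * f' x)) :=
      (tendsto_inv_atTop_nhds_zero_nat (𝕜 := ℝ)).mul_const _
    have b8 := b6.sub b7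
    simpa using b8
  rw [Metric.tendsto_atTop]
  intro ε hε
  obtain ⟨N₀, hN₀⟩ := hx (ε / 2 / 2) (by positivity)
  have a2 := a1.const_mul δ
  rw [Metric.tendsto_atTop] at a2
  obtain ⟨N₁, hN₁⟩ := a2 (ε / 2) (by positivity)
  refine ⟨N₀ + N₁ + 1, fun N hN => ?_⟩
  have a3 := hN₀ S hS δ hδ N (by omega)
  have a4 := hN₁ N (by omega)
  have hN0 : (0 : ℝ) < N := by exact_mod_cast (by omega : 0 < N)
  have e1 : (N : ℝ)⁻¹ * ∑ n ∈ Icc 1 N, g S (s * (n : ℤ)) * f (R^[n] x) =
      (N : ℝ)⁻¹ * ∑ n ∈ Icc 1 N, (g S (s * (n : ℤ)) - δ) * f (R^[n] x) +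
      δ * ((N : ℝ)⁻¹ * ∑ n ∈ Icc 1 N, f (R^[n] x)) := by
    rw [mul_left_comm δ, ← mul_add]
    congr 1
    rw [mul_sum, ← sum_add_distrib]
    apply sum_congr rfl; intro n _
    ring
  rw [Real.dist_eq] at a4 ⊢
  rw [e1, add_sub_assoc]
  refine lt_of_le_of_lt (abs_add_le _ _) ?_
  have a5 : |(N : ℝ)⁻¹ * ∑ n ∈ Icc 1 N, (g S (s * (n : ℤ)) - δ) * f (R^[n] x)| ≤ ε / 2 / 2 := by
    rw [abs_mul, abs_of_pos (inv_pos.2 hN0), inv_mul_le_iff₀ hN0, mul_comm]
    exact a3
  linarith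

end Pool.Agent.Q49.PE
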